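import Mathlib

/-!
# Which rectangles fit in the unit cube of dimension `N`?

Let `N ≥ 2` and `a, b > 0`. A rectangle with the sides `a` and `b` fits in the unit cube `[0,1]^N` if
and only if there are an integer `0 ≤ k ≤ N - 2` and a real number `0 ≤ x ≤ 1` with
`a² ≤ k + 2 x²` and `b² ≤ N - 2 - k + 2 (1 - x)²` (or `N = 2` and `a, b ≤ 1`).
For squares this gives `f(2, 2n+1)² = n + 1/8`.

Proof. If `u`, `v` are the side vectors, then `u ⟂ v` and `|u_j| + |v_j| ≤ 1` for all coordinates.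
Put `x = u² - v²`, `y = 2uv`, `ρ = u² + v²` and `d = 1 - |x|`, coordinate by coordinate. The sum `X` of
the `x_j` differs by at most `D = ∑ d_j` from a number of the parity of `N`, and the loss
`∑ (1 - ρ_j)` is at least `D - D²/4` (`loss`), because the `y_j` have the sum `0`. Near the ends,
`|X| > N - 2`, one coordinate has a different sign from all the others or none has, and there
the loss is at least `d_i - ∑_{j ≠ i} d_j` (`loss_single`).
-/

set_option autoImplicit false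

open Finset

namespace Pool.Agent.Results.MP_befaea_co.AllRectangles

/-- The unit cube `[0,1]^N`. -/
def unitCube (N : ℕ) : Set (EuclideanSpace ℝ (Fin N)) := {x | ∀ j, 0 ≤ x j ∧ x j ≤ 1}

/-- The rectangle `[0,a] × [0,b]` in the Euclidean plane. -/
def rectangle (a b : ℝ) : Set (EuclideanSpace ℝ (Fin 2)) :=
  {x | (0 ≤ x 0 ∧ x 0 ≤ a) ∧ 0 ≤ x 1 ∧ x 1 ≤ b}

/-- A congruent copy of the rectangle with the sides `a` and `b` lies in the unit cube of
dimension `N`: it is the image under an isometry of the plane onto a plane of `ℝ^N`. -/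
def Fits (a b : ℝ) (N : ℕ) : Prop :=
  ∃ φ : EuclideanSpace ℝ (Fin 2) →ᵃⁱ[ℝ] EuclideanSpace ℝ (Fin N), φ '' rectangle a b ⊆ unitCube N

/-! ### Inequalities -/

theorem poly {p q : ℝ} (hp : 0 ≤ p) (hpq : p ≤ q) (hq : q ≤ 1) :
    p ^ 2 ≤ (1 - q ^ 2) * ((p + q) / 2) ^ 2 + (((p + q) / 2) ^ 2) ^ 2 := by
  obtain ⟨w, rfl⟩ : ∃ w, q = p + 2 * w := ⟨(q - p) / 2, by ring⟩
  have hw : 0 ≤ w := by linarith
  have h1 : (p + 2 * w) ^ 2 ≤ 1 := pow_le_one₀ (by linarith) hq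
  have h2 : (p + w) ^ 2 * (2 * p + 3 * w) ≤ 2 * p + w := by
    have h3 : (p + w) ^ 2 * (2 * p + 3 * w) ≤ (2 * p + w) * (p + 2 * w) ^ 2 := by
      nlinarith [mul_nonneg (mul_nonneg hp hp) hw, mul_nonneg hp (mul_nonneg hw hw),
        mul_nonneg hw (mul_nonneg hw hw)]
    have h4 : (2 * p + w) * (p + 2 * w) ^ 2 ≤ (2 * p + w) * 1 :=
      mul_le_mul_of_nonneg_left h1 (by linarith)
    linarith
  have h5 := mul_nonneg hw (sub_nonneg.2 h2)
  have h6 : (1 - (p + 2 * w) ^ 2) * ((p + (p + 2 * w)) / 2) ^ 2 +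
      (((p + (p + 2 * w)) / 2) ^ 2) ^ 2 - p ^ 2 =
      w * (2 * p + w - (p + w) ^ 2 * (2 * p + 3 * w)) := by ring
  linarith

theorem loss_one {x y ρ : ℝ} (h1 : ρ ^ 2 = x ^ 2 + y ^ 2) (h2 : ρ + |y| ≤ 1) :
    (1 - |x|) - (1 - |x|) ^ 2 / 2 ≤ 1 - ρ := by
  have h4 : |y| ^ 2 ≤ (1 - ρ) ^ 2 := pow_le_pow_left₀ (abs_nonneg y) (by linarith) 2
  have h5 := sq_abs x
  have h6 := sq_abs y
  nlinarith

theorem x_le {ι : Type} {x y ρ : ι → ℝ} (h1 : ∀ j, ρ j ^ 2 = x j ^ 2 + y j ^ 2)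
    (h2 : ∀ j, ρ j + |y j| ≤ 1) (h3 : ∀ j, 0 ≤ ρ j) (j : ι) : |x j| ≤ 1 := by
  have h4 : |x j| ≤ ρ j := abs_le_of_sq_le_sq (by rw [h1 j]; nlinarith [sq_nonneg (y j)]) (h3 j)
  linarith [h2 j, abs_nonneg (y j)]

section Loss

variable {ι : Type} [Fintype ι] [DecidableEq ι] {x y ρ : ι → ℝ}

theorem rest (h2 : ∀ j, ρ j + |y j| ≤ 1) (hy : ∑ j, y j = 0) (i : ι) :
    |y i| ≤ ∑ j ∈ univ.erase i, (1 - ρ j) := by
  have h := Finset.add_sum_erase univ y (mem_univ i)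
  have h' : y i = - ∑ j ∈ univ.erase i, y j := by linarith
  rw [h', abs_neg]
  exact (abs_sum_le_sum_abs _ _).trans (sum_le_sum fun j _ => by linarith [h2 j])

/-- One coordinate against all the others. -/
theorem loss_single (h1 : ∀ j, ρ j ^ 2 = x j ^ 2 + y j ^ 2) (h2 : ∀ j, ρ j + |y j| ≤ 1)
    (h3 : ∀ j, 0 ≤ ρ j) (hy : ∑ j, y j = 0) (i : ι) :
    (1 - |x i|) - ∑ j ∈ univ.erase i, (1 - |x j|) ≤ ∑ j, (1 - ρ j) := by
  have hr := rest h2 hy i
  have hs : ∑ j, (1 - ρ j) = (1 - ρ i) + ∑ j ∈ univ.erase i, (1 - ρ j) :=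
    (Finset.add_sum_erase univ (fun j => 1 - ρ j) (mem_univ i)).symm
  have he : 0 ≤ ∑ j ∈ univ.erase i, (1 - |x j|) :=
    sum_nonneg fun j _ => by linarith [x_le h1 h2 h3 j]
  rw [hs]
  set e := ∑ j ∈ univ.erase i, (1 - |x j|)
  set r := ∑ j ∈ univ.erase i, (1 - ρ j)
  have hr0 : 0 ≤ r := (abs_nonneg _).trans hr
  have hρ : ρ i ≤ 1 := by linarith [h2 i, abs_nonneg (y i)]
  rcases le_total ((1 - |x i|) - e) 0 with h | h
  · linarith
  · have hx := x_le h1 h2 h3 i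
    have hx0 := abs_nonneg (x i)
    have h4 : ρ i ^ 2 ≤ (1 + r - ((1 - |x i|) - e)) ^ 2 := by
      have h5 : y i ^ 2 ≤ r ^ 2 := by
        rw [← sq_abs (y i)]
        exact pow_le_pow_left₀ (abs_nonneg _) hr 2
      rw [h1 i, ← sq_abs (x i)]
      nlinarith [mul_nonneg hr0 he, mul_nonneg hr0 hx0, mul_nonneg he hx0, mul_nonneg he he]
    have h6 : |ρ i| ≤ 1 + r - ((1 - |x i|) - e) := abs_le_of_sq_le_sq h4 (by linarith)
    linarith [le_abs_self (ρ i)]

/-- The loss in terms of the sum of the defects. -/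
theorem loss (h1 : ∀ j, ρ j ^ 2 = x j ^ 2 + y j ^ 2) (h2 : ∀ j, ρ j + |y j| ≤ 1)
    (h3 : ∀ j, 0 ≤ ρ j) (hy : ∑ j, y j = 0) :
    (∑ j, (1 - |x j|)) - (∑ j, (1 - |x j|)) ^ 2 / 4 ≤ ∑ j, (1 - ρ j) := by
  have hd0 : ∀ j, 0 ≤ 1 - |x j| := fun j => by linarith [x_le h1 h2 h3 j]
  have hL : ∀ j, (1 - |x j|) - (1 - |x j|) ^ 2 / 2 ≤ 1 - ρ j := fun j => loss_one (h1 j) (h2 j)
  by_cases hall : ∀ j, 1 - |x j| ≤ (∑ j, (1 - |x j|)) / 2
  · have h4 : ∑ j, ((1 - |x j|) - (1 - |x j|) * ((∑ j, (1 - |x j|)) / 2) / 2) ≤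
        ∑ j, (1 - ρ j) := by
      refine sum_le_sum fun j _ => ?_
      have h5 := mul_le_mul_of_nonneg_left (hall j) (hd0 j)
      have h6 := hL j
      nlinarith
    rw [sum_sub_distrib, ← sum_div, ← sum_mul] at h4
    linarith
  · push Not at hall
    obtain ⟨i, hi⟩ := hall
    have hsx : ∑ j, (1 - |x j|) = (1 - |x i|) + ∑ j ∈ univ.erase i, (1 - |x j|) :=
      (Finset.add_sum_erase univ (fun j => 1 - |x j|) (mem_univ i)).symm
    have hs : ∑ j, (1 - ρ j) = (1 - ρ i) + ∑ j ∈ univ.erase i, (1 - ρ j) :=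
      (Finset.add_sum_erase univ (fun j => 1 - ρ j) (mem_univ i)).symm
    have hr := rest h2 hy i
    have he : 0 ≤ ∑ j ∈ univ.erase i, (1 - |x j|) := sum_nonneg fun j _ => hd0 j
    have hsq : ∑ j ∈ univ.erase i, (1 - |x j|) ^ 2 ≤ (∑ j ∈ univ.erase i, (1 - |x j|)) ^ 2 := by
      rw [sq (∑ j ∈ univ.erase i, (1 - |x j|)), sum_mul]
      refine sum_le_sum fun j hj => ?_
      rw [sq]
      exact mul_le_mul_of_nonneg_left
        (single_le_sum (f := fun j => 1 - |x j|) (fun k _ => hd0 k) hj) (hd0 j)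
    have hr2 : (∑ j ∈ univ.erase i, (1 - |x j|)) - (∑ j ∈ univ.erase i, (1 - |x j|)) ^ 2 / 2 ≤
        ∑ j ∈ univ.erase i, (1 - ρ j) := by
      have h4 : ∑ j ∈ univ.erase i, ((1 - |x j|) - (1 - |x j|) ^ 2 / 2) ≤
          ∑ j ∈ univ.erase i, (1 - ρ j) := sum_le_sum fun j _ => hL j
      rw [sum_sub_distrib, ← sum_div] at h4
      linarith
    rw [hsx] at hi
    rw [hs, hsx]
    set e := ∑ j ∈ univ.erase i, (1 - |x j|)
    set r := ∑ j ∈ univ.erase i, (1 - ρ j)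
    have hr0 : 0 ≤ r := (abs_nonneg _).trans hr
    have hx0 := abs_nonneg (x i)
    have hx1 := x_le h1 h2 h3 i
    have hp := poly (p := |x i|) (q := 1 - e) hx0 (by linarith) (by linarith)
    set h := ((|x i| + (1 - e)) / 2) ^ 2 with hh
    have hh0 : 0 ≤ h := sq_nonneg _
    have h4 : ρ i ^ 2 ≤ (r + h) ^ 2 := by
      have h5 : y i ^ 2 ≤ r ^ 2 := by
        rw [← sq_abs (y i)]
        exact pow_le_pow_left₀ (abs_nonneg _) hr 2
      have h6 : (1 - (1 - e) ^ 2) * h ≤ 2 * r * h := by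
        refine mul_le_mul_of_nonneg_right ?_ hh0
        linarith
      rw [h1 i, ← sq_abs (x i)]
      nlinarith
    have h6 : |ρ i| ≤ r + h := abs_le_of_sq_le_sq h4 (by linarith)
    have h7 : (1 - |x i| + e) - (1 - |x i| + e) ^ 2 / 4 = 1 - h := by rw [hh]; ring
    linarith [le_abs_self (ρ i)]

omit [DecidableEq ι] in
theorem loss_big (h1 : ∀ j, ρ j ^ 2 = x j ^ 2 + y j ^ 2) (h2 : ∀ j, ρ j + |y j| ≤ 1)
    (h3 : ∀ j, 0 ≤ ρ j) (hD : 2 ≤ ∑ j, (1 - |x j|)) : 1 ≤ ∑ j, (1 - ρ j) := by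
  have h4 : ∑ j, (1 - |x j|) / 2 ≤ ∑ j, (1 - ρ j) := by
    refine sum_le_sum fun j _ => ?_
    have h5 := loss_one (h1 j) (h2 j)
    have h6 := x_le h1 h2 h3 j
    have h7 := abs_nonneg (x j)
    nlinarith
  rw [← sum_div] at h4
  linarith

end Loss

/-- The possible positions of the sum of the `x_j`, and the loss. -/
theorem key {N : ℕ} (hN : 2 ≤ N) {x y ρ : Fin N → ℝ} (h1 : ∀ j, ρ j ^ 2 = x j ^ 2 + y j ^ 2)
    (h2 : ∀ j, ρ j + |y j| ≤ 1) (h3 : ∀ j, 0 ≤ ρ j) (hy : ∑ j, y j = 0) :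
    (∃ k : ℕ, k + 2 ≤ N ∧ |∑ j, x j - (2 * k + 2 - N)| ≤ 2 ∧
      1 - ((∑ j, x j - (2 * k + 2 - N)) / 2) ^ 2 ≤ ∑ j, (1 - ρ j)) ∨
    (0 ≤ 2 - N - ∑ j, x j ∧ 2 - N - ∑ j, x j ≤ ∑ j, (1 - ρ j)) ∨
    (0 ≤ ∑ j, x j - (N - 2) ∧ ∑ j, x j - (N - 2) ≤ ∑ j, (1 - ρ j)) := by
  classical
  have hN' : (2 : ℝ) ≤ N := by exact_mod_cast hN
  have hx1 : ∀ j, |x j| ≤ 1 := x_le h1 h2 h3
  set P : Finset (Fin N) := univ.filter fun j => 0 ≤ x j with hP
  have hcard : P.card + Pᶜ.card = N := by rw [card_add_card_compl, Fintype.card_fin]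
  have hcard' : (P.card : ℝ) + (Pᶜ.card : ℝ) = N := by exact_mod_cast hcard
  have hDp0 : 0 ≤ ∑ j ∈ P, (1 - |x j|) := sum_nonneg fun j _ => by linarith [hx1 j]
  have hDm0 : 0 ≤ ∑ j ∈ Pᶜ, (1 - |x j|) := sum_nonneg fun j _ => by linarith [hx1 j]
  have hDp1 : ∑ j ∈ P, (1 - |x j|) ≤ P.card := by
    have h := sum_le_sum (s := P) (f := fun j => 1 - |x j|) (g := fun _ => (1 : ℝ))
      fun j _ => by linarith [abs_nonneg (x j)]
    rwa [sum_const, nsmul_eq_mul, mul_one] at h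
  have hDm1 : ∑ j ∈ Pᶜ, (1 - |x j|) ≤ Pᶜ.card := by
    have h := sum_le_sum (s := Pᶜ) (f := fun j => 1 - |x j|) (g := fun _ => (1 : ℝ))
      fun j _ => by linarith [abs_nonneg (x j)]
    rwa [sum_const, nsmul_eq_mul, mul_one] at h
  have hD : ∑ j, (1 - |x j|) = ∑ j ∈ P, (1 - |x j|) + ∑ j ∈ Pᶜ, (1 - |x j|) :=
    (sum_add_sum_compl P _).symm
  have hX : ∑ j, x j = 2 * P.card - N - ∑ j ∈ P, (1 - |x j|) + ∑ j ∈ Pᶜ, (1 - |x j|) := by
    rw [← sum_add_sum_compl P x]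
    have e1 : ∑ j ∈ P, x j = ∑ j ∈ P, (1 - (1 - |x j|)) := by
      refine sum_congr rfl fun j hj => ?_
      rw [abs_of_nonneg (mem_filter.1 hj).2]
      ring
    have e2 : ∑ j ∈ Pᶜ, x j = ∑ j ∈ Pᶜ, ((1 - |x j|) - 1) := by
      refine sum_congr rfl fun j hj => ?_
      have h : ¬ 0 ≤ x j := fun h => (mem_compl.1 hj) (mem_filter.2 ⟨mem_univ _, h⟩)
      rw [abs_of_neg (not_le.1 h)]
      ring
    rw [e1, e2, sum_sub_distrib, sum_sub_distrib (f := fun j => 1 - |x j|)]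
    simp only [sum_const, nsmul_eq_mul, mul_one]
    linarith
  -- the two one-element cases
  have hone : ∀ (Q : Finset (Fin N)) (R : Finset (Fin N)), Qᶜ = R → Q.card = 1 →
      ∑ j ∈ Q, (1 - |x j|) - ∑ j ∈ R, (1 - |x j|) ≤ ∑ j, (1 - ρ j) := by
    intro Q R hQR hQ
    obtain ⟨i, rfl⟩ := card_eq_one.1 hQ
    have h := loss_single h1 h2 h3 hy i
    have e : R = univ.erase i := by
      rw [← hQR]
      ext j
      simp
    rw [e, sum_singleton]
    exact h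
  have hL := loss h1 h2 h3 hy
  have hL2 := loss_big h1 h2 h3
  rw [hD] at hL hL2
  have hone1 := hone P Pᶜ rfl
  have hone2 := hone Pᶜ P (compl_compl P)
  have hzero1 : P.card = 0 → ∑ j ∈ P, (1 - |x j|) = 0 := by
    intro h
    rw [card_eq_zero.1 h, sum_empty]
  have hzero2 : Pᶜ.card = 0 → ∑ j ∈ Pᶜ, (1 - |x j|) = 0 := by
    intro h
    rw [card_eq_zero.1 h, sum_empty]
  rw [hX]
  set Dp := ∑ j ∈ P, (1 - |x j|)
  set Dm := ∑ j ∈ Pᶜ, (1 - |x j|)
  set L := ∑ j, (1 - ρ j)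
  set n := P.card
  set m := Pᶜ.card
  rcases le_or_gt 2 (Dp + Dm) with hbig | hsmall
  · left
    have hL1 := hL2 hbig
    -- a position at a distance of at most two
    obtain ⟨k, hk, hk1, hk2⟩ : ∃ k : ℕ, k + 2 ≤ N ∧ (2 * k : ℝ) ≤ 2 * n - Dp + Dm ∧
        2 * n - Dp + Dm ≤ (2 * k + 4 : ℝ) := by
      have hz0 : 0 ≤ (2 * n - Dp + Dm) / 2 := by
        have : (0 : ℝ) ≤ n := Nat.cast_nonneg n
        linarith
      have hz1 : 2 * n - Dp + Dm ≤ 2 * N := by
        have : (0 : ℝ) ≤ m := Nat.cast_nonneg m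
        linarith
      rcases le_or_gt (⌊(2 * n - Dp + Dm) / 2⌋₊ + 2) N with h | h
      · refine ⟨_, h, ?_, ?_⟩
        · linarith [Nat.floor_le hz0]
        · linarith [Nat.lt_floor_add_one ((2 * n - Dp + Dm) / 2)]
      · refine ⟨N - 2, by omega, ?_, ?_⟩
        · have h5 : ((N - 2 : ℕ) : ℝ) ≤ (⌊(2 * n - Dp + Dm) / 2⌋₊ : ℝ) := by
            exact_mod_cast (by omega : N - 2 ≤ ⌊(2 * n - Dp + Dm) / 2⌋₊)
          linarith [Nat.floor_le hz0]
        · rw [Nat.cast_sub hN]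
          push_cast
          linarith
    refine ⟨k, hk, ?_, ?_⟩
    · rw [abs_le]
      constructor <;> linarith
    · nlinarith [sq_nonneg ((2 * (n : ℝ) - N - Dp + Dm - (2 * k + 2 - N)) / 2)]
  · rcases le_total Dp Dm with hle | hle
    · rcases Nat.lt_or_ge m 2 with hm | hm
      · rcases Nat.lt_or_ge m 1 with hm0 | hm0
        · -- all signs are positive
          have hm' : m = 0 := by omega
          have hDm : Dm = 0 := hzero2 hm'
          have hDp : Dp = 0 := by linarith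
          left
          refine ⟨n - 2, by omega, ?_, ?_⟩
          · have hn : ((n - 2 : ℕ) : ℝ) = n - 2 := by
              rw [Nat.cast_sub (by omega)]
              norm_num
            rw [hn, hDm, hDp, abs_le]
            constructor <;> linarith
          · have hn : ((n - 2 : ℕ) : ℝ) = n - 2 := by
              rw [Nat.cast_sub (by omega)]
              norm_num
            rw [hn, hDm, hDp]
            rw [hDm, hDp] at hL
            nlinarith
        · -- exactly one negative sign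
          have hm' : m = 1 := by omega
          right; right
          have h := hone2 hm'
          have hn : (n : ℝ) = N - 1 := by
            have : (m : ℝ) = 1 := by exact_mod_cast hm'
            linarith
          rw [hn]
          constructor <;> linarith
      · left
        refine ⟨n, by omega, ?_, ?_⟩
        · rw [abs_le]
          constructor <;> linarith
        · nlinarith
    · rcases Nat.lt_or_ge n 2 with hn | hn
      · rcases Nat.lt_or_ge n 1 with hn0 | hn0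
        · have hn' : n = 0 := by omega
          have hDp : Dp = 0 := hzero1 hn'
          have hDm : Dm = 0 := by linarith
          left
          refine ⟨0, by omega, ?_, ?_⟩
          · rw [hn', hDm, hDp, abs_le]
            constructor <;> push_cast <;> linarith
          · rw [hn', hDm, hDp]
            rw [hDm, hDp] at hL
            push_cast
            nlinarith
        · have hn' : n = 1 := by omega
          right; left
          have h := hone1 hn'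
          have hn1 : (n : ℝ) = 1 := by exact_mod_cast hn'
          rw [hn1]
          constructor <;> linarith
      · left
        refine ⟨n - 2, by omega, ?_, ?_⟩
        · have hn' : ((n - 2 : ℕ) : ℝ) = n - 2 := by
            rw [Nat.cast_sub hn]
            norm_num
          rw [hn', abs_le]
          constructor <;> linarith
        · have hn' : ((n - 2 : ℕ) : ℝ) = n - 2 := by
            rw [Nat.cast_sub hn]
            norm_num
          rw [hn']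
          nlinarith

/-- The condition of the theorem on the squares `A = a²`, `B = b²` of the sides. -/
theorem dominate {N : ℕ} (hN : 2 ≤ N) {A B X L : ℝ} (hX : X = A - B) (hL : L = N - (A + B))
    (h : (∃ k : ℕ, k + 2 ≤ N ∧ |X - (2 * k + 2 - N)| ≤ 2 ∧
      1 - ((X - (2 * k + 2 - N)) / 2) ^ 2 ≤ L) ∨
      (0 ≤ 2 - N - X ∧ 2 - N - X ≤ L) ∨ (0 ≤ X - (N - 2) ∧ X - (N - 2) ≤ L)) :
    (∃ k : ℕ, k + 2 ≤ N ∧ ∃ t : ℝ, 0 ≤ t ∧ t ≤ 1 ∧ A ≤ k + 2 * t ^ 2 ∧
      B ≤ (N - 2 - k) + 2 * (1 - t) ^ 2) ∨ (N = 2 ∧ A ≤ 1 ∧ B ≤ 1) := by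
  rcases h with ⟨k, hk, h1, h2⟩ | ⟨h1, h2⟩ | ⟨h1, h2⟩
  · left
    rw [abs_le] at h1
    refine ⟨k, hk, (1 + (X - (2 * k + 2 - N)) / 2) / 2, by linarith, by linarith, ?_, ?_⟩
    · nlinarith
    · nlinarith
  · rcases Nat.lt_or_ge N 3 with h3 | h3
    · right
      have : N = 2 := by omega
      subst this
      refine ⟨rfl, ?_, ?_⟩ <;> push_cast at * <;> linarith
    · left
      refine ⟨1, by omega, 0, le_rfl, zero_le_one, ?_, ?_⟩
      · push_cast
        linarith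
      · push_cast
        linarith
  · rcases Nat.lt_or_ge N 3 with h3 | h3
    · right
      have : N = 2 := by omega
      subst this
      refine ⟨rfl, ?_, ?_⟩ <;> push_cast at * <;> linarith
    · left
      refine ⟨N - 3, by omega, 1, zero_le_one, le_rfl, ?_, ?_⟩
      · rw [Nat.cast_sub h3]
        push_cast
        linarith
      · rw [Nat.cast_sub h3]
        push_cast
        linarith

/-- The inequality for the two side vectors of a rectangle. -/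
theorem upper {N : ℕ} (hN : 2 ≤ N) (u v : Fin N → ℝ) (A B : ℝ) (huv : ∀ j, |u j| + |v j| ≤ 1)
    (hu : ∑ j, u j ^ 2 = A) (hv : ∑ j, v j ^ 2 = B) (h : ∑ j, u j * v j = 0) :
    (∃ k : ℕ, k + 2 ≤ N ∧ ∃ t : ℝ, 0 ≤ t ∧ t ≤ 1 ∧ A ≤ k + 2 * t ^ 2 ∧
      B ≤ (N - 2 - k) + 2 * (1 - t) ^ 2) ∨ (N = 2 ∧ A ≤ 1 ∧ B ≤ 1) := by
  have h2 : ∀ j, u j ^ 2 + v j ^ 2 + |2 * (u j * v j)| ≤ 1 := by
    intro j
    have e : |2 * (u j * v j)| = 2 * (|u j| * |v j|) := by
      rw [abs_mul, abs_mul, abs_of_pos (by norm_num : (0 : ℝ) < 2)]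
    rw [e, ← sq_abs (u j), ← sq_abs (v j)]
    nlinarith [abs_nonneg (u j), abs_nonneg (v j), huv j]
  have hk := key hN (x := fun j => u j ^ 2 - v j ^ 2) (y := fun j => 2 * (u j * v j))
    (ρ := fun j => u j ^ 2 + v j ^ 2) (fun j => by ring) h2 (fun j => by positivity)
    (by rw [← mul_sum, h, mul_zero])
  refine dominate hN ?_ ?_ hk
  · rw [sum_sub_distrib, hu, hv]
  · rw [sum_sub_distrib, sum_add_distrib, hu, hv]
    simp

/-- The side vectors of a rectangle in the cube. -/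
theorem vectors {a b : ℝ} (ha : 0 ≤ a) (hb : 0 ≤ b) {N : ℕ} (h : Fits a b N) :
    ∃ u v : Fin N → ℝ, (∀ j, |u j| + |v j| ≤ 1) ∧ ∑ j, u j * v j = 0 ∧ ∑ j, u j ^ 2 = a ^ 2 ∧
      ∑ j, v j ^ 2 = b ^ 2 := by
  obtain ⟨φ, hφ0⟩ := h
  have hmem : ∀ s t : ℝ, 0 ≤ s → s ≤ a → 0 ≤ t → t ≤ b →
      ∀ j, 0 ≤ φ (!₂[s, t]) j ∧ φ (!₂[s, t]) j ≤ 1 := by
    intro s t hs hs' ht ht'
    exact hφ0 ⟨!₂[s, t], ⟨⟨hs, hs'⟩, ht, ht'⟩, rfl⟩
  set L := φ.linearIsometry with hLdef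
  have hφ : ∀ x : EuclideanSpace ℝ (Fin 2), φ x = L x + φ 0 := by
    intro x
    have := φ.map_vadd 0 x
    simpa using this
  set u := L (!₂[a, 0]) with hu
  set v := L (!₂[0, b]) with hv
  have hun : ‖u‖ ^ 2 = a ^ 2 := by
    rw [hu, L.norm_map, EuclideanSpace.norm_sq_eq, Fin.sum_univ_two]
    simp
  have hvn : ‖v‖ ^ 2 = b ^ 2 := by
    rw [hv, L.norm_map, EuclideanSpace.norm_sq_eq, Fin.sum_univ_two]
    simp
  have huv : inner ℝ u v = 0 := by
    rw [hu, hv, L.inner_map_map]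
    simp [PiLp.inner_apply, Fin.sum_univ_two]
  have huvL : L (!₂[a, b]) = u + v := by
    rw [hu, hv, ← map_add]
    congr 1
    ext i
    fin_cases i <;> simp
  refine ⟨fun j => u j, fun j => v j, ?_, ?_, ?_, ?_⟩
  · intro j
    have h00 := hmem 0 0 le_rfl ha le_rfl hb j
    have h10 := hmem a 0 ha le_rfl le_rfl hb j
    have h01 := hmem 0 b le_rfl ha hb le_rfl j
    have h11 := hmem a b ha le_rfl hb le_rfl j
    have z : (!₂[(0 : ℝ), 0] : EuclideanSpace ℝ (Fin 2)) = 0 := by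
      ext i
      fin_cases i <;> simp
    rw [z] at h00
    rw [hφ, huvL] at h11
    rw [hφ, ← hu] at h10
    rw [hφ, ← hv] at h01
    simp only [PiLp.add_apply] at h11 h10 h01
    change |u j| + |v j| ≤ 1
    rcases abs_cases (u j) with ⟨e1, _⟩ | ⟨e1, _⟩ <;> rcases abs_cases (v j) with ⟨e2, _⟩ | ⟨e2, _⟩ <;>
      rw [e1, e2] <;> linarith [h00.1, h00.2, h10.1, h10.2, h01.1, h01.2, h11.1, h11.2]
  · rw [← huv, PiLp.inner_apply]
    refine Finset.sum_congr rfl fun j _ => ?_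
    simp [mul_comm]
  · rw [← hun, EuclideanSpace.norm_sq_eq]
    simp
  · rw [← hvn, EuclideanSpace.norm_sq_eq]
    simp

/-! ### Constructions -/

/-- Side vectors in the cube with the squared lengths at least `A` and `B`. -/
def Good (N : ℕ) (A B : ℝ) : Prop :=
  ∃ u v : Fin N → ℝ, (∀ j, |u j| + |v j| ≤ 1) ∧ ∑ j, u j * v j = 0 ∧ A ≤ ∑ j, u j ^ 2 ∧
    B ≤ ∑ j, v j ^ 2

theorem good_left {N : ℕ} {A B : ℝ} (h : Good N A B) : Good (N + 1) (A + 1) B := by
  obtain ⟨u, v, h1, h2, h3, h4⟩ := h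
  refine ⟨Fin.cons 1 u, Fin.cons 0 v, ?_, ?_, ?_, ?_⟩
  · intro j
    refine Fin.cases ?_ (fun j => ?_) j
    · simp
    · simpa using h1 j
  · simp [Fin.sum_univ_succ, h2]
  · simp only [Fin.sum_univ_succ, Fin.cons_zero, Fin.cons_succ]
    linarith
  · simp only [Fin.sum_univ_succ, Fin.cons_zero, Fin.cons_succ]
    linarith

theorem good_right {N : ℕ} {A B : ℝ} (h : Good N A B) : Good (N + 1) A (B + 1) := by
  obtain ⟨u, v, h1, h2, h3, h4⟩ := h
  refine ⟨Fin.cons 0 u, Fin.cons 1 v, ?_, ?_, ?_, ?_⟩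
  · intro j
    refine Fin.cases ?_ (fun j => ?_) j
    · simp
    · simpa using h1 j
  · simp [Fin.sum_univ_succ, h2]
  · simp only [Fin.sum_univ_succ, Fin.cons_zero, Fin.cons_succ]
    linarith
  · simp only [Fin.sum_univ_succ, Fin.cons_zero, Fin.cons_succ]
    linarith

theorem good_two {t : ℝ} (h0 : 0 ≤ t) (h1 : t ≤ 1) : Good 2 (2 * t ^ 2) (2 * (1 - t) ^ 2) := by
  refine ⟨![t, t], ![1 - t, -(1 - t)], ?_, ?_, ?_, ?_⟩
  · intro j
    fin_cases j
    · change |t| + |1 - t| ≤ 1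
      rw [abs_of_nonneg h0, abs_of_nonneg (by linarith)]
      linarith
    · change |t| + |-(1 - t)| ≤ 1
      rw [abs_neg, abs_of_nonneg h0, abs_of_nonneg (by linarith)]
      linarith
  · simp only [Fin.sum_univ_two]
    change t * (1 - t) + t * (-(1 - t)) = 0
    ring
  · simp only [Fin.sum_univ_two]
    change 2 * t ^ 2 ≤ t ^ 2 + t ^ 2
    linarith
  · simp only [Fin.sum_univ_two]
    change 2 * (1 - t) ^ 2 ≤ (1 - t) ^ 2 + (-(1 - t)) ^ 2
    linarith [neg_sq (1 - t)]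

theorem good_all {t : ℝ} (h0 : 0 ≤ t) (h1 : t ≤ 1) (k m : ℕ) :
    Good (2 + k + m) (k + 2 * t ^ 2) (m + 2 * (1 - t) ^ 2) := by
  induction m with
  | zero =>
    induction k with
    | zero =>
      have h := good_two h0 h1
      simpa using h
    | succ k ih =>
      have h := good_left ih
      have e : ((k + 1 : ℕ) : ℝ) + 2 * t ^ 2 = (k : ℝ) + 2 * t ^ 2 + 1 := by push_cast; ring
      rw [e]
      exact h
  | succ m ih =>
    have h := good_right ih
    have e : ((m + 1 : ℕ) : ℝ) + 2 * (1 - t) ^ 2 = (m : ℝ) + 2 * (1 - t) ^ 2 + 1 := by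
      push_cast; ring
    rw [e]
    exact h

theorem good_square : Good 2 1 1 := by
  refine ⟨![1, 0], ![0, 1], ?_, ?_, ?_, ?_⟩
  · intro j
    fin_cases j <;> simp
  · simp [Fin.sum_univ_two]
  · simp [Fin.sum_univ_two]
  · simp [Fin.sum_univ_two]

/-- Shortening a side vector. -/
theorem shorten {N : ℕ} (u : Fin N → ℝ) {a : ℝ} (ha : 0 < a) (h : a ^ 2 ≤ ∑ j, u j ^ 2) :
    ∃ c : ℝ, 0 ≤ c ∧ c ≤ 1 ∧ ∑ j, (c * u j) ^ 2 = a ^ 2 := by
  have hS : 0 < ∑ j, u j ^ 2 := lt_of_lt_of_le (by positivity) h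
  refine ⟨a / √(∑ j, u j ^ 2), by positivity, ?_, ?_⟩
  · rw [div_le_one (Real.sqrt_pos.2 hS)]
    exact Real.le_sqrt_of_sq_le h
  · have e : ∀ j, (a / √(∑ j, u j ^ 2) * u j) ^ 2 = a ^ 2 / (∑ j, u j ^ 2) * u j ^ 2 := by
      intro j
      rw [mul_pow, div_pow, Real.sq_sqrt hS.le]
    simp only [e]
    rw [← mul_sum, div_mul_cancel₀ _ hS.ne']

theorem fits_of_good {N : ℕ} {a b : ℝ} (ha : 0 < a) (hb : 0 < b) (h : Good N (a ^ 2) (b ^ 2)) :
    Fits a b N := by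
  obtain ⟨u', v', h1', h2', h3', h4'⟩ := h
  obtain ⟨c, hc0, hc1, hc⟩ := shorten u' ha h3'
  obtain ⟨d, hd0, hd1, hd⟩ := shorten v' hb h4'
  obtain ⟨u, hu'⟩ : ∃ u : Fin N → ℝ, ∀ j, u j = c * u' j := ⟨_, fun _ => rfl⟩
  obtain ⟨v, hv'⟩ : ∃ v : Fin N → ℝ, ∀ j, v j = d * v' j := ⟨_, fun _ => rfl⟩
  have hu : ∑ j, u j ^ 2 = a ^ 2 := by rw [← hc]; simp only [hu']
  have hv : ∑ j, v j ^ 2 = b ^ 2 := by rw [← hd]; simp only [hv']
  have huv : ∑ j, u j * v j = 0 := by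
    have e : ∀ j, u j * v j = c * d * (u' j * v' j) := fun j => by rw [hu', hv']; ring
    simp only [e]
    rw [← mul_sum, h2', mul_zero]
  have h1 : ∀ j, |u j| + |v j| ≤ 1 := by
    intro j
    rw [hu', hv', abs_mul, abs_mul, abs_of_nonneg hc0, abs_of_nonneg hd0]
    have e1 := mul_le_mul_of_nonneg_right hc1 (abs_nonneg (u' j))
    have e2 := mul_le_mul_of_nonneg_right hd1 (abs_nonneg (v' j))
    linarith [h1' j]
  set p : EuclideanSpace ℝ (Fin N) := WithLp.toLp 2 u with hp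
  set q : EuclideanSpace ℝ (Fin N) := WithLp.toLp 2 v with hq
  have hpj : ∀ j, p j = u j := fun _ => rfl
  have hqj : ∀ j, q j = v j := fun _ => rfl
  have hpn : ‖p‖ ^ 2 = a ^ 2 := by
    rw [EuclideanSpace.norm_sq_eq, ← hu]
    simp [hpj]
  have hqn : ‖q‖ ^ 2 = b ^ 2 := by
    rw [EuclideanSpace.norm_sq_eq, ← hv]
    simp [hqj]
  have hpq : inner ℝ p q = 0 := by
    rw [← huv, PiLp.inner_apply]
    refine Finset.sum_congr rfl fun j _ => ?_
    simp [hpj, hqj, mul_comm]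
  let L : EuclideanSpace ℝ (Fin 2) →ₗ[ℝ] EuclideanSpace ℝ (Fin N) :=
    { toFun := fun x => (x 0 / a) • p + (x 1 / b) • q
      map_add' := by
        intro x y
        simp only [PiLp.add_apply, add_div, add_smul]
        abel
      map_smul' := by
        intro c x
        simp only [PiLp.smul_apply, smul_eq_mul, RingHom.id_apply, smul_add, smul_smul, mul_div_assoc] }
  have hLapp : ∀ x, L x = (x 0 / a) • p + (x 1 / b) • q := fun _ => rfl
  have hnorm : ∀ x, ‖L x‖ = ‖x‖ := by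
    intro x
    have h1 : ‖L x‖ ^ 2 = ‖x‖ ^ 2 := by
      rw [hLapp, norm_add_sq_real, inner_smul_left, inner_smul_right, hpq, norm_smul, norm_smul,
        mul_pow, mul_pow, hpn, hqn, EuclideanSpace.norm_sq_eq, Fin.sum_univ_two]
      simp only [Real.norm_eq_abs, sq_abs]
      field_simp
      simp
      ring
    exact (pow_left_inj₀ (norm_nonneg _) (norm_nonneg _) (by norm_num)).mp h1
  let P : EuclideanSpace ℝ (Fin N) := WithLp.toLp 2 fun j => 1 / 2 - u j / 2 - v j / 2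
  let φ : EuclideanSpace ℝ (Fin 2) →ᵃⁱ[ℝ] EuclideanSpace ℝ (Fin N) :=
    { toFun := fun x => L x + P
      linear := L
      map_vadd' := by
        intro x y
        simp [add_assoc]
      norm_map := hnorm }
  refine ⟨φ, ?_⟩
  rintro _ ⟨x, hx, rfl⟩ j
  have e : φ x j = 1 / 2 + (x 0 / a - 1 / 2) * u j + (x 1 / b - 1 / 2) * v j := by
    change (L x + P) j = _
    rw [hLapp]
    simp only [PiLp.add_apply, PiLp.smul_apply, smul_eq_mul, hpj, hqj]
    change _ + (1 / 2 - u j / 2 - v j / 2) = _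
    ring
  rw [e]
  obtain ⟨⟨hx0, hx0'⟩, hx1, hx1'⟩ := hx
  have hs : |x 0 / a - 1 / 2| ≤ 1 / 2 := by
    rw [abs_le]
    have f1 := div_nonneg hx0 ha.le
    have f2 := (div_le_one ha).2 hx0'
    constructor <;> linarith
  have ht : |x 1 / b - 1 / 2| ≤ 1 / 2 := by
    rw [abs_le]
    have f1 := div_nonneg hx1 hb.le
    have f2 := (div_le_one hb).2 hx1'
    constructor <;> linarith
  have hs' : |(x 0 / a - 1 / 2) * u j| ≤ 1 / 2 * |u j| := by
    rw [abs_mul]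
    exact mul_le_mul_of_nonneg_right hs (abs_nonneg _)
  have ht' : |(x 1 / b - 1 / 2) * v j| ≤ 1 / 2 * |v j| := by
    rw [abs_mul]
    exact mul_le_mul_of_nonneg_right ht (abs_nonneg _)
  rw [abs_le] at hs' ht'
  have := h1 j
  constructor <;> linarith [hs'.1, hs'.2, ht'.1, ht'.2]

/-- Which rectangles fit in the unit cube. -/
theorem main {N : ℕ} (hN : 2 ≤ N) {a b : ℝ} (ha : 0 < a) (hb : 0 < b) :
    Fits a b N ↔ (∃ k : ℕ, k + 2 ≤ N ∧ ∃ t : ℝ, 0 ≤ t ∧ t ≤ 1 ∧ a ^ 2 ≤ k + 2 * t ^ 2 ∧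
      b ^ 2 ≤ (N - 2 - k) + 2 * (1 - t) ^ 2) ∨ (N = 2 ∧ a ≤ 1 ∧ b ≤ 1) := by
  constructor
  · intro h
    obtain ⟨u, v, h1, h2, h3, h4⟩ := vectors ha.le hb.le h
    rcases upper hN u v _ _ h1 h3 h4 h2 with h5 | ⟨h5, h6, h7⟩
    · exact Or.inl h5
    · right
      refine ⟨h5, ?_, ?_⟩
      · nlinarith
      · nlinarith
  · rintro (⟨k, hk, t, h0, h1, h2, h3⟩ | ⟨rfl, h1, h2⟩)
    · obtain ⟨m, rfl⟩ : ∃ m, N = 2 + k + m := ⟨N - 2 - k, by omega⟩
      obtain ⟨u, v, g1, g2, g3, g4⟩ := good_all h0 h1 k m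
      refine fits_of_good ha hb ⟨u, v, g1, g2, h2.trans g3, le_trans ?_ g4⟩
      push_cast at h3
      linarith
    · obtain ⟨u, v, g1, g2, g3, g4⟩ := good_square
      refine fits_of_good ha hb ⟨u, v, g1, g2, le_trans ?_ g3, le_trans ?_ g4⟩
      · nlinarith
      · nlinarith

/-- **Theorem.** (1) Let `N ≥ 2` and `a, b > 0`. A rectangle with the sides `a` and `b` fits in the
unit cube `[0,1]^N` if and only if there are an integer `k` with `0 ≤ k ≤ N - 2` and a real number `t`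
with `0 ≤ t ≤ 1` such that `a² ≤ k + 2 t²` and `b² ≤ N - 2 - k + 2 (1 - t)²`, or `N = 2` and
`a, b ≤ 1`. (2) In particular the largest square in `[0,1]^(2n+1)` has the side `√((8n+1)/8)`, for
every `n ≥ 1`. -/
theorem result :
    (∀ (N : ℕ) (a b : ℝ), 2 ≤ N → 0 < a → 0 < b →
      (Fits a b N ↔ (∃ k : ℕ, k + 2 ≤ N ∧ ∃ t : ℝ, 0 ≤ t ∧ t ≤ 1 ∧ a ^ 2 ≤ k + 2 * t ^ 2 ∧
        b ^ 2 ≤ (N - 2 - k) + 2 * (1 - t) ^ 2) ∨ (N = 2 ∧ a ≤ 1 ∧ b ≤ 1))) ∧
    ∀ n : ℕ, 1 ≤ n → IsGreatest {s : ℝ | 0 ≤ s ∧ Fits s s (2 * n + 1)} (√((8 * n + 1) / 8)) := by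
  refine ⟨fun N a b hN ha hb => main hN ha hb, fun n hn => ?_⟩
  have hn' : (1 : ℝ) ≤ n := by exact_mod_cast hn
  have hs0 : 0 < √((8 * (n : ℝ) + 1) / 8) := Real.sqrt_pos.2 (by positivity)
  have hsq : √((8 * (n : ℝ) + 1) / 8) ^ 2 = (8 * n + 1) / 8 := Real.sq_sqrt (by positivity)
  constructor
  · refine ⟨hs0.le, (main (by omega) hs0 hs0).2 (Or.inl ⟨n, by omega, 1 / 4, by norm_num,
      by norm_num, ?_, ?_⟩)⟩
    · rw [hsq]
      linarith
    · rw [hsq]
      push_cast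
      linarith
  · rintro s ⟨hs, hfit⟩
    rcases hs.eq_or_lt with rfl | hs
    · exact hs0.le
    · apply Real.le_sqrt_of_sq_le
      rcases (main (by omega) hs hs).1 hfit with ⟨k, hk, t, h0, h1, h2, h3⟩ | ⟨h, -, -⟩
      · push_cast at h3
        rcases lt_or_ge n k with hkn | hkn
        · have hk' : (n : ℝ) + 1 ≤ k := by exact_mod_cast hkn
          nlinarith
        · rcases hkn.eq_or_lt with rfl | hkn
          · rcases le_total t (1 / 4) with ht | ht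
            · nlinarith
            · nlinarith
          · rcases Nat.lt_or_ge (k + 1) n with hkn' | hkn'
            · have hk' : (k : ℝ) + 2 ≤ n := by exact_mod_cast hkn'
              nlinarith
            · have hk' : n = k + 1 := by omega
              subst hk'
              push_cast at *
              rcases le_total t (3 / 4) with ht | ht
              · nlinarith
              · nlinarith
      · omega

end Pool.Agent.Results.MP_befaea_co.AllRectangles
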